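import Pool.Agent.Lib_helper59.HT.Defs2

set_option autoImplicit false

open Finset Matrix

namespace Pool.Agent.HT

section linear

theorem sm5_minor {R C : Type} [Fintype R] [Fintype C] [DecidableEq C] (B : Matrix R C ℚ)
    (hB : ∀ x : C → ℚ, B.mulVec x = 0 → x = 0) : ∃ ρ : C → R, (B.submatrix ρ id).det ≠ 0 := by
  classical
  have h1 : B.rank = Fintype.card C := by
    have hinj : Function.Injective B.mulVecLin := by
      rw [← LinearMap.ker_eq_bot, LinearMap.ker_eq_bot']
      intro x hx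
      exact hB x hx
    unfold Matrix.rank
    rw [LinearMap.finrank_range_of_inj hinj, Module.finrank_fintype_fun_eq_card]
  rw [Matrix.rank_eq_finrank_span_row] at h1
  obtain ⟨f, hf1, -, hf3⟩ := Submodule.exists_fun_fin_finrank_span_eq ℚ (Set.range B.row)
  let e : C ≃ Fin (Module.finrank ℚ (Submodule.span ℚ (Set.range B.row))) :=
    (Fintype.equivFin C).trans (finCongr h1.symm)
  choose ρ hρ using fun c => hf1 (e c)
  refine ⟨ρ, ?_⟩
  have h2 : LinearIndependent ℚ (B.submatrix ρ id).row := by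
    have h3 : (B.submatrix ρ id).row = f ∘ e := by
      funext c
      rw [Function.comp_apply, ← hρ c]
      rfl
    rw [h3]
    exact hf3.comp _ e.injective
  rw [Matrix.linearIndependent_rows_iff_isUnit, Matrix.isUnit_iff_isUnit_det] at h2
  exact h2.ne_zero

theorem sm5_card_torsion (q d : ℕ) [NeZero q] (hd : 0 < d) :
    Nat.card {y : ZMod q // (d : ℤ) • y = 0} ≤ d := by
  classical
  rw [Nat.card_eq_fintype_card, Fintype.card_subtype]
  have h := IsAddCyclic.card_nsmul_eq_zero_le (α := ZMod q) hd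
  refine le_trans (le_of_eq ?_) h
  congr 1
  ext y
  simp

end linear

section cochains

variable {n : ℕ} {A : Type*} [AddCommGroup A]

theorem sm5_chi_swap (a b : Fin n) (e : Fin n × Fin n) : chi a b e = - chi b a e := by
  unfold chi
  ring

theorem sm5_chi_self (a : Fin n) (e : Fin n × Fin n) : chi a a e = 0 := by
  unfold chi
  ring

theorem sm5_tl_swap (f : E' n → A) (a b : Fin n) : tl f a b = - tl f b a := by
  unfold tl
  rw [← Finset.sum_neg_distrib]
  refine Finset.sum_congr rfl fun e _ => ?_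
  rw [sm5_chi_swap a b, neg_smul]

theorem sm5_tl_self (f : E' n → A) (a : Fin n) : tl f a a = 0 := by
  unfold tl
  simp [sm5_chi_self]

theorem sm5_cob_tl (f : E' n → A) (t : Tri n) : cob (tl f) t = ∑ e : E' n, bd t e.1 • f e := by
  unfold cob tl bd
  rw [← Finset.sum_add_distrib, ← Finset.sum_add_distrib]
  refine Finset.sum_congr rfl fun e _ => ?_
  rw [add_smul, add_smul]

/-- the antisymmetric function with given values on the edges of `Fs` -/
def sm5_g (Fs : Finset (E n)) (x : Fs → A) (a b : Fin n) : A := ∑ e : Fs, chi a b e.1.1 • x e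

theorem sm5_g_swap (Fs : Finset (E n)) (x : Fs → A) (a b : Fin n) :
    sm5_g Fs x a b = - sm5_g Fs x b a := by
  unfold sm5_g
  rw [← Finset.sum_neg_distrib]
  refine Finset.sum_congr rfl fun e _ => ?_
  rw [sm5_chi_swap a b, neg_smul]

theorem sm5_g_self (Fs : Finset (E n)) (x : Fs → A) (a : Fin n) : sm5_g Fs x a a = 0 := by
  unfold sm5_g
  simp [sm5_chi_self]

theorem sm5_cob_g (Fs : Finset (E n)) (x : Fs → A) (t : Tri n) :
    cob (sm5_g Fs x) t = ∑ e : Fs, bd t e.1.1 • x e := by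
  unfold cob sm5_g bd
  rw [← Finset.sum_add_distrib, ← Finset.sum_add_distrib]
  refine Finset.sum_congr rfl fun e _ => ?_
  rw [add_smul, add_smul]

/-- value at an edge -/
theorem sm5_chi_edge (e e' : Fin n × Fin n) (he : e.1 < e.2) (he' : e'.1 < e'.2) :
    chi e.1 e.2 e' = if e' = e then 1 else 0 := by
  unfold chi
  have h : ¬ e' = (e.2, e.1) := by
    rintro rfl
    exact lt_asymm he he'
  rw [if_neg h, sub_zero]

theorem sm5_g_edge (Fs : Finset (E n)) (x : Fs → A) (e : Fs) :
    sm5_g Fs x e.1.1.1 e.1.1.2 = x e := by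
  unfold sm5_g
  rw [Finset.sum_eq_single e]
  · rw [sm5_chi_edge _ _ e.1.2 e.1.2, if_pos rfl, one_smul]
  · intro e' _ he'
    rw [sm5_chi_edge _ _ e.1.2 e'.1.2, if_neg, zero_smul]
    intro h
    exact he' (Subtype.ext (Subtype.ext h))
  · intro h
    exact absurd (Finset.mem_univ _) h

theorem sm5_g_ne (Fs : Finset (E n)) (x : Fs → A) (a b : Fin n) (h : sm5_g Fs x a b ≠ 0) :
    inF Fs a b := by
  by_contra hc
  apply h
  unfold sm5_g
  refine Finset.sum_eq_zero fun e _ => ?_
  have h1 : chi a b e.1.1 = 0 := by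
    unfold chi
    rw [if_neg, if_neg, sub_zero]
    · intro h2
      exact hc ⟨e.1, e.2, Or.inr h2⟩
    · intro h2
      exact hc ⟨e.1, e.2, Or.inl h2⟩
  rw [h1, zero_smul]

/-- an antisymmetric function supported on `Fs` is determined by its values on `Fs` -/
theorem sm5_g_of (Fs : Finset (E n)) (g : Fin n → Fin n → A) (hg : ∀ a b, g a b = - g b a)
    (hg0 : ∀ a, g a a = 0) (hs : ∀ a b, g a b ≠ 0 → inF Fs a b) (a b : Fin n) :
    g a b = sm5_g Fs (fun e => g e.1.1.1 e.1.1.2) a b := by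
  classical
  have key : ∀ a b : Fin n, a < b → g a b = sm5_g Fs (fun e => g e.1.1.1 e.1.1.2) a b := by
    intro a b hab
    by_cases h : (⟨(a, b), hab⟩ : E n) ∈ Fs
    · exact (sm5_g_edge Fs (fun e => g e.1.1.1 e.1.1.2) ⟨⟨(a, b), hab⟩, h⟩).symm
    · have h2 : ¬ inF Fs a b := by
        rintro ⟨e, he, h3 | h3⟩
        · apply h
          have : e = ⟨(a, b), hab⟩ := Subtype.ext h3
          rwa [← this]
        · have h4 := e.2
          rw [h3] at h4
          exact lt_asymm hab h4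
      have h3 : g a b = 0 := by
        by_contra h4
        exact h2 (hs a b h4)
      have h5 : sm5_g Fs (fun e => g e.1.1.1 e.1.1.2) a b = 0 := by
        by_contra h4
        exact h2 (sm5_g_ne Fs _ a b h4)
      rw [h3, h5]
  rcases lt_trichotomy a b with h | h | h
  · exact key a b h
  · subst h
    rw [hg0, sm5_g_self]
  · rw [hg a b, sm5_g_swap, key b a h]

/-- an antisymmetric function which vanishes at the root is `tl` of its restriction -/
theorem sm5_tl_of (hn : 0 < n) (G : Fin n → Fin n → A) (hG : ∀ a b, G a b = - G b a)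
    (hGd : ∀ a, G a a = 0) (hG0 : ∀ b, G ⟨0, hn⟩ b = 0) (a b : Fin n) :
    tl (fun e : E' n => G e.1.1 e.1.2) a b = G a b := by
  classical
  have key : ∀ a b : Fin n, a < b → tl (fun e : E' n => G e.1.1 e.1.2) a b = G a b := by
    intro a b hab
    unfold tl
    by_cases h0 : 0 < a.val
    · rw [Finset.sum_eq_single (⟨(a, b), h0, hab⟩ : E' n)]
      · rw [sm5_chi_edge (a, b) (a, b) hab hab, if_pos rfl, one_smul]
      · intro e' _ he'
        rw [sm5_chi_edge (a, b) e'.1 hab e'.2.2, if_neg, zero_smul]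
        intro h
        exact he' (Subtype.ext h)
      · intro h
        exact absurd (Finset.mem_univ _) h
    · have ha : a = ⟨0, hn⟩ := Fin.ext (by simpa using h0)
      rw [ha, hG0]
      refine Finset.sum_eq_zero fun e _ => ?_
      rw [← ha, sm5_chi_edge (a, b) e.1 hab e.2.2, if_neg, zero_smul]
      intro h
      have h1 := e.2.1
      rw [h] at h1
      exact h0 h1
  rcases lt_trichotomy a b with h | h | h
  · exact key a b h
  · subst h
    rw [hGd, sm5_tl_self]
  · rw [hG a b, sm5_tl_swap, key b a h]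

end cochains

theorem sm5_bd_le {n : ℕ} (t : Tri n) (e : Fin n × Fin n) : |bd t e| ≤ 1 := by
  obtain ⟨a, b, c⟩ := t
  obtain ⟨x, y⟩ := e
  unfold bd chi
  simp only [Prod.mk.injEq]
  by_cases h1 : x = a <;> by_cases h2 : x = b <;> by_cases h3 : x = c <;>
    by_cases h4 : y = a <;> by_cases h5 : y = b <;> by_cases h6 : y = c <;>
    simp_all

/-- a nonconstant function has at least `n - 1` edges in its coboundary -/
theorem sm5_cut {n : ℕ} (Fs : Finset (E n)) (hFs : Fs.card + 1 < n) (u : Fin n → ℚ)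
    (hu : ∀ a b, u a ≠ u b → inF Fs a b) (a b : Fin n) : u a = u b := by
  classical
  by_contra hab
  let φ : Fin n → Sym2 (Fin n) := fun x => if u x = u a then s(x, b) else s(a, x)
  have h1 : (Finset.univ.erase a).card ≤ (Fs.image fun e => s(e.1.1, e.1.2)).card := by
    refine Finset.card_le_card_of_injOn φ ?_ ?_
    · intro x _
      have h2 : inF Fs (if u x = u a then x else a) (if u x = u a then b else x) := by
        apply hu
        by_cases hx : u x = u a
        · rw [if_pos hx, if_pos hx, hx]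
          exact hab
        · rw [if_neg hx, if_neg hx]
          exact fun h => hx h.symm
      obtain ⟨e, he, h3⟩ := h2
      rw [Finset.coe_image, Set.mem_image]
      refine ⟨e, he, ?_⟩
      have h4 : φ x = s(if u x = u a then x else a, if u x = u a then b else x) := by
        by_cases hx : u x = u a
        · simp [φ, hx]
        · simp [φ, hx]
      rw [h4]
      rcases h3 with h3 | h3
      · rw [h3]
      · rw [h3]
        exact Sym2.eq_swap
    · intro x hx y hy hxy
      have hxa : x ≠ a := Finset.ne_of_mem_erase hx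
      have hya : y ≠ a := Finset.ne_of_mem_erase hy
      simp only [φ] at hxy
      by_cases h2 : u x = u a <;> by_cases h3 : u y = u a
      · rw [if_pos h2, if_pos h3, Sym2.eq_iff] at hxy
        rcases hxy with ⟨h, -⟩ | ⟨h, h'⟩
        · exact h
        · exact h.trans h'
      · rw [if_pos h2, if_neg h3, Sym2.eq_iff] at hxy
        rcases hxy with ⟨h, -⟩ | ⟨h, h'⟩
        · exact absurd h hxa
        · subst h
          exact absurd h2 h3
      · rw [if_neg h2, if_pos h3, Sym2.eq_iff] at hxy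
        rcases hxy with ⟨h, -⟩ | ⟨h, h'⟩
        · exact absurd h.symm hya
        · subst h'
          exact absurd h3 h2
      · rw [if_neg h2, if_neg h3, Sym2.eq_iff] at hxy
        rcases hxy with ⟨-, h⟩ | ⟨h, h'⟩
        · exact h
        · exact h'.trans h
  have h2 : (Fs.image fun e => s(e.1.1, e.1.2)).card ≤ Fs.card := Finset.card_image_le
  rw [Finset.card_erase_of_mem (Finset.mem_univ _), Finset.card_univ, Fintype.card_fin] at h1
  omega

theorem sm5_inj {n : ℕ} (τ : E' n → Tri n) (hdet : (M τ).det ≠ 0) (Fs : Finset (E n))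
    (hFs : Fs.card + 1 < n) (x : Fs → ℚ) (hx : ∀ i, ∑ e : Fs, bd (τ i) e.1.1 • x e = 0) :
    x = 0 := by
  classical
  have hn : 0 < n := by omega
  set g := sm5_g Fs x with hgdef
  have hg : ∀ a b, g a b = - g b a := sm5_g_swap Fs x
  have hg0 : ∀ a, g a a = 0 := sm5_g_self Fs x
  set G : Fin n → Fin n → ℚ := fun a b => g a b + g b ⟨0, hn⟩ + g ⟨0, hn⟩ a with hGdef
  have hG : ∀ a b, G a b = - G b a := by
    intro a b
    simp only [hGdef]
    rw [hg a b, hg b ⟨0, hn⟩, hg ⟨0, hn⟩ a]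
    ring
  have hGd : ∀ a, G a a = 0 := by
    intro a
    simp only [hGdef]
    rw [hg0, hg a ⟨0, hn⟩]
    ring
  have hG0 : ∀ b, G ⟨0, hn⟩ b = 0 := by
    intro b
    simp only [hGdef]
    rw [hg0, hg b ⟨0, hn⟩]
    ring
  have htl := sm5_tl_of hn G hG hGd hG0
  set f : E' n → ℚ := fun e => G e.1.1 e.1.2 with hf
  have h1 : ∀ i, ∑ e : E' n, bd (τ i) e.1 • f e = 0 := by
    intro i
    rw [← sm5_cob_tl]
    have h2 : cob (tl f) (τ i) = cob g (τ i) := by
      unfold cob
      rw [htl, htl, htl]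
      simp only [hGdef]
      rw [hg (τ i).1 ⟨0, hn⟩, hg (τ i).2.1 ⟨0, hn⟩, hg (τ i).2.2 ⟨0, hn⟩]
      ring
    rw [h2, hgdef, sm5_cob_g]
    exact hx i
  have h2 : ((M τ).map (Int.cast : ℤ → ℚ)).det ≠ 0 := by
    have h3 : ((M τ).map (Int.cast : ℤ → ℚ)).det = ((M τ).det : ℚ) :=
      (Int.cast_det (R := ℚ) (M τ)).symm
    rw [h3]
    exact_mod_cast hdet
  have h3 : f = 0 := by
    apply Matrix.eq_zero_of_mulVec_eq_zero h2
    funext i
    rw [Pi.zero_apply, ← h1 i]
    simp only [Matrix.mulVec, dotProduct, Matrix.map_apply, M, Matrix.of_apply, zsmul_eq_mul]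
  have h4 : ∀ a b, G a b = 0 := by
    intro a b
    rw [← htl a b, h3]
    simp [tl]
  have h5 : ∀ a b, g a b = g ⟨0, hn⟩ b - g ⟨0, hn⟩ a := by
    intro a b
    have h6 := h4 a b
    simp only [hGdef] at h6
    rw [hg b ⟨0, hn⟩] at h6
    linarith
  have h6 : ∀ a b, g ⟨0, hn⟩ a = g ⟨0, hn⟩ b := by
    refine sm5_cut Fs hFs (fun a => g ⟨0, hn⟩ a) fun a b hab => ?_
    apply sm5_g_ne Fs x
    show g a b ≠ 0
    rw [h5 a b]
    intro h7
    exact hab (by linarith)
  funext e
  rw [← sm5_g_edge Fs x e]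
  show g _ _ = 0
  rw [h5, h6 e.1.1.2 e.1.1.1, sub_self]

theorem sm5_tl_edge {n : ℕ} {A : Type*} [AddCommGroup A] (f : E' n → A) (e : E' n) :
    tl f e.1.1 e.1.2 = f e := by
  unfold tl
  rw [Finset.sum_eq_single e]
  · rw [sm5_chi_edge _ _ e.2.2 e.2.2, if_pos rfl, one_smul]
  · intro e' _ he'
    rw [sm5_chi_edge _ _ e.2.2 e'.2.2, if_neg, zero_smul]
    intro h
    exact he' (Subtype.ext h)
  · intro h
    exact absurd (Finset.mem_univ _) h

theorem sm5_tl_root {n : ℕ} {A : Type*} [AddCommGroup A] (hn : 0 < n) (f : E' n → A)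
    (a : Fin n) : tl f a ⟨0, hn⟩ = 0 := by
  unfold tl
  refine Finset.sum_eq_zero fun e _ => ?_
  have h1 : chi a (⟨0, hn⟩ : Fin n) e.1 = 0 := by
    unfold chi
    rw [if_neg, if_neg, sub_zero]
    · intro h
      have h2 := e.2.1
      rw [h] at h2
      exact lt_irrefl _ h2
    · intro h
      have h2 := e.2.1.trans e.2.2
      rw [h] at h2
      exact lt_irrefl _ h2
  rw [h1, zero_smul]

theorem few_supported_pr (n q : ℕ) [NeZero q] (τ : E' n → Tri n) (hdet : (M τ).det ≠ 0)
    (Fs : Finset (E n)) (hFs : Fs.card + 1 < n) :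
    Nat.card {f : E' n → ZMod q // f ∈ Kq (ZMod q) τ ∧ ∃ (g : Fin n → Fin n → ZMod q)
      (h : Fin n → ZMod q), (∀ a b, g a b = tl f a b + h b - h a) ∧
      (∀ a b, g a b ≠ 0 → inF Fs a b)} ≤ (Fs.card).factorial ^ Fs.card := by
  classical
  have hn : 0 < n := by omega
  set B : Matrix (E' n) Fs ℤ := Matrix.of fun i e => bd (τ i) e.1.1 with hB
  obtain ⟨ρ, hρ⟩ := sm5_minor (B.map (Int.cast : ℤ → ℚ)) (by
    intro x hx
    refine sm5_inj τ hdet Fs hFs x fun i => ?_
    have h1 := congrFun hx i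
    rw [Pi.zero_apply] at h1
    rw [← h1]
    simp only [Matrix.mulVec, dotProduct, Matrix.map_apply, hB, Matrix.of_apply, zsmul_eq_mul])
  set B₀ : Matrix Fs Fs ℤ := B.submatrix ρ id with hB₀
  have hd : B₀.det ≠ 0 := by
    intro h
    apply hρ
    have h3 : (((B.map (Int.cast : ℤ → ℚ)).submatrix ρ id)).det = (B₀.det : ℚ) :=
      (Int.cast_det (R := ℚ) B₀).symm
    rw [h3, h, Int.cast_zero]
  have hd1 : B₀.det.natAbs ≤ (Fs.card).factorial := by
    have h1 := Matrix.det_le (A := B₀) (abv := AbsoluteValue.abs) (x := 1) (by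
      intro i j
      exact sm5_bd_le _ _)
    rw [one_pow, Fintype.card_coe, nsmul_eq_mul, mul_one] at h1
    have h2 : |B₀.det| ≤ ((Fs.card).factorial : ℤ) := h1
    rw [Int.abs_eq_natAbs] at h2
    exact_mod_cast h2
  set d := B₀.det.natAbs with hddef
  have hdpos : 0 < d := Int.natAbs_pos.mpr hd
  -- solutions modulo `q`
  have hsol : ∀ x : Fs → ZMod q, (∀ i, ∑ e : Fs, bd (τ i) e.1.1 • x e = 0) →
      ∀ e, (d : ℤ) • x e = 0 := by
    intro x hx e
    have h1 : (B₀.map (Int.cast : ℤ → ZMod q)).mulVec x = 0 := by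
      funext c
      rw [Pi.zero_apply, ← hx (ρ c)]
      simp only [Matrix.mulVec, dotProduct, Matrix.map_apply, hB₀, hB, Matrix.submatrix_apply,
        Matrix.of_apply, zsmul_eq_mul, id]
    have h2 : ((B₀.map (Int.cast : ℤ → ZMod q)).adjugate *
        (B₀.map (Int.cast : ℤ → ZMod q))).mulVec x = 0 := by
      rw [← Matrix.mulVec_mulVec, h1, Matrix.mulVec_zero]
    rw [Matrix.adjugate_mul, Matrix.smul_mulVec, Matrix.one_mulVec] at h2
    have h3 := congrFun h2 e
    rw [Pi.smul_apply, Pi.zero_apply, smul_eq_mul] at h3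
    have h4 : (B₀.map (Int.cast : ℤ → ZMod q)).det = ((B₀.det : ℤ) : ZMod q) :=
      (Int.cast_det (R := ZMod q) B₀).symm
    rw [h4] at h3
    rw [zsmul_eq_mul]
    rcases Int.natAbs_eq B₀.det with h5 | h5
    · rw [← h3, ← h5]
    · have h7 : (d : ℤ) = - B₀.det := by
        rw [hddef]
        omega
      have h6 : ((d : ℤ) : ZMod q) = - ((B₀.det : ℤ) : ZMod q) := by
        rw [h7, Int.cast_neg]
      rw [h6, neg_mul, h3, neg_zero]
  -- the injection
  have hpt : ∀ f : {f : E' n → ZMod q // f ∈ Kq (ZMod q) τ ∧ ∃ (g : Fin n → Fin n → ZMod q)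
      (h : Fin n → ZMod q), (∀ a b, g a b = tl f a b + h b - h a) ∧
      (∀ a b, g a b ≠ 0 → inF Fs a b)}, ∃ g : Fin n → Fin n → ZMod q,
      (∀ a b, tl f.1 a b = g a b + g b ⟨0, hn⟩ + g ⟨0, hn⟩ a) ∧
      (∀ a b, g a b = sm5_g Fs (fun e => g e.1.1.1 e.1.1.2) a b) ∧
      ∀ e : Fs, (d : ℤ) • g e.1.1.1 e.1.1.2 = 0 := by
    rintro ⟨f, hf, g, h, hg, hgs⟩
    have hsw : ∀ a b, g a b = - g b a := by
      intro a b
      rw [hg a b, hg b a, sm5_tl_swap]
      ring
    have hd0 : ∀ a, g a a = 0 := by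
      intro a
      rw [hg a a, sm5_tl_self]
      ring
    have hgx := sm5_g_of Fs g hsw hd0 hgs
    refine ⟨g, fun a b => ?_, hgx, hsol _ fun i => ?_⟩
    · rw [hg a b, hg b ⟨0, hn⟩, hsw ⟨0, hn⟩ a, hg a ⟨0, hn⟩, sm5_tl_root, sm5_tl_root]
      ring
    · rw [← sm5_cob_g]
      have h1 : cob (sm5_g Fs fun e : Fs => g e.1.1.1 e.1.1.2) (τ i) = cob (tl f) (τ i) := by
        unfold cob
        rw [← hgx, ← hgx, ← hgx, hg, hg, hg]
        ring
      rw [h1]
      exact hf i
  choose gg hgg1 hgg2 hgg3 using hpt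
  have hinj : Function.Injective (fun f => (⟨fun e : Fs => gg f e.1.1.1 e.1.1.2, hgg3 f⟩ :
      {x : Fs → ZMod q // ∀ e, (d : ℤ) • x e = 0})) := by
    intro f f' hff
    have h1 : (fun e : Fs => gg f e.1.1.1 e.1.1.2) = fun e : Fs => gg f' e.1.1.1 e.1.1.2 :=
      congrArg Subtype.val hff
    have h2 : ∀ a b, gg f a b = gg f' a b := by
      intro a b
      rw [hgg2 f a b, hgg2 f' a b, h1]
    apply Subtype.ext
    funext e
    rw [← sm5_tl_edge f.1 e, ← sm5_tl_edge f'.1 e, hgg1, hgg1]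
    simp only [h2]
  refine (Nat.card_le_card_of_injective _ hinj).trans ?_
  have e1 : {x : Fs → ZMod q // ∀ e, (d : ℤ) • x e = 0} ≃ (Fs → {y : ZMod q // (d : ℤ) • y = 0}) :=
    Equiv.subtypePiEquivPi (p := fun (_ : Fs) (y : ZMod q) => (d : ℤ) • y = 0)
  rw [Nat.card_congr e1, Nat.card_fun, Nat.card_eq_fintype_card (α := Fs), Fintype.card_coe]
  exact Nat.pow_le_pow_left ((sm5_card_torsion q d hdpos).trans hd1) _

end Pool.Agent.HT
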