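import Pool.Agent.Lib_helper59.HT.Defs2

set_option autoImplicit false

open Finset Matrix

namespace Pool.Agent.HT

section basic

variable {n : ℕ}

theorem sm6_chi_swap (a b : Fin n) (e : Fin n × Fin n) : chi a b e = - chi b a e := by
  unfold chi
  ring

theorem sm6_chi_self (a : Fin n) (e : Fin n × Fin n) : chi a a e = 0 := by
  unfold chi
  ring

variable {A : Type*} [AddCommGroup A]

theorem sm6_tl_swap (f : E' n → A) (a b : Fin n) : tl f a b = - tl f b a := by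
  unfold tl
  rw [← Finset.sum_neg_distrib]
  refine Finset.sum_congr rfl fun e _ => ?_
  rw [sm6_chi_swap a b, neg_smul]

theorem sm6_tl_self (f : E' n → A) (a : Fin n) : tl f a a = 0 := by
  unfold tl
  simp [sm6_chi_self]

/-- `g` is the gauge transform of `f` by `h` -/
def sm6_g (f : E' n → A) (h : Fin n → A) (a b : Fin n) : A := tl f a b + h b - h a

theorem sm6_g_swap (f : E' n → A) (h : Fin n → A) (a b : Fin n) :
    sm6_g f h a b = - sm6_g f h b a := by
  unfold sm6_g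
  rw [sm6_tl_swap]
  abel

theorem sm6_g_self (f : E' n → A) (h : Fin n → A) (a : Fin n) : sm6_g f h a a = 0 := by
  unfold sm6_g
  rw [sm6_tl_self]
  abel

theorem sm6_g_ne_swap (f : E' n → A) (h : Fin n → A) (a b : Fin n) :
    sm6_g f h a b ≠ 0 ↔ sm6_g f h b a ≠ 0 := by
  rw [sm6_g_swap f h a b, neg_ne_zero]

theorem sm6_cob_g (f : E' n → A) (h : Fin n → A) (t : Tri n) :
    cob (sm6_g f h) t = cob (tl f) t := by
  unfold cob sm6_g
  abel

end basic

theorem sm6_cnt_congr {α : Type*} [Fintype α] {P Q : α → Prop} (h : ∀ x, P x ↔ Q x) :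
    cnt P = cnt Q := by
  unfold cnt
  congr 1
  ext x
  simp [h x]

theorem sm6_cnt_le {α : Type*} [Fintype α] {P Q : α → Prop} (h : ∀ x, P x → Q x) :
    cnt P ≤ cnt Q := by
  unfold cnt
  refine Finset.card_le_card fun x hx => ?_
  simp only [Finset.mem_filter, Finset.mem_univ, true_and] at hx ⊢
  exact h x hx

theorem sm6_cnt_eq_sum {α : Type*} [Fintype α] (P : α → Prop) [DecidablePred P] :
    cnt P = ∑ x, if P x then 1 else 0 := by
  unfold cnt
  rw [Finset.card_filter]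
  refine Finset.sum_congr rfl fun x _ => ?_
  congr

theorem sm6_cnt_prod {α β : Type*} [Fintype α] [Fintype β] (P : α × β → Prop) :
    cnt P = ∑ x, cnt (fun y => P (x, y)) := by
  classical
  rw [sm6_cnt_eq_sum, Fintype.sum_prod_type]
  refine Finset.sum_congr rfl fun x _ => ?_
  rw [sm6_cnt_eq_sum]

variable {n q : ℕ}

/-- number of ordered pairs in the support -/
noncomputable def sm6_supp (f : E' n → ZMod q) (h : Fin n → ZMod q) : ℕ :=
  cnt (fun x : Fin n × Fin n => sm6_g f h x.1 x.2 ≠ 0)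

/-- degree of a vertex in the support -/
noncomputable def sm6_deg (f : E' n → ZMod q) (h : Fin n → ZMod q) (v : Fin n) : ℕ :=
  cnt (fun x : Fin n => sm6_g f h v x ≠ 0)

theorem sm6_supp_eq (f : E' n → ZMod q) (h : Fin n → ZMod q) :
    sm6_supp f h = ∑ v, sm6_deg f h v := sm6_cnt_prod _

/-- change of the gauge at one vertex -/
theorem sm6_supp_split (f : E' n → ZMod q) (h : Fin n → ZMod q) (v : Fin n) :
    sm6_supp f h = 2 * sm6_deg f h v +
      cnt (fun x : Fin n × Fin n => x.1 ≠ v ∧ x.2 ≠ v ∧ sm6_g f h x.1 x.2 ≠ 0) := by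
  classical
  unfold sm6_supp sm6_deg
  rw [sm6_cnt_eq_sum, sm6_cnt_eq_sum, sm6_cnt_eq_sum, Fintype.sum_prod_type, Fintype.sum_prod_type]
  rw [← Finset.add_sum_erase _ _ (Finset.mem_univ v)]
  rw [← Finset.add_sum_erase _ (fun x => ∑ y, if (x, y).1 ≠ v ∧ (x, y).2 ≠ v ∧
    sm6_g f h (x, y).1 (x, y).2 ≠ 0 then 1 else 0) (Finset.mem_univ v)]
  have h1 : ∀ x ∈ Finset.univ.erase v, (∑ y, if sm6_g f h (x, y).1 (x, y).2 ≠ 0 then 1 else 0) =
      (if sm6_g f h v x ≠ 0 then 1 else 0) + ∑ y, if (x, y).1 ≠ v ∧ (x, y).2 ≠ v ∧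
        sm6_g f h (x, y).1 (x, y).2 ≠ 0 then 1 else 0 := by
    intro x hx
    have hxv : x ≠ v := Finset.ne_of_mem_erase hx
    rw [← Finset.add_sum_erase _ _ (Finset.mem_univ v)]
    rw [← Finset.add_sum_erase _ (fun y => if (x, y).1 ≠ v ∧ (x, y).2 ≠ v ∧
      sm6_g f h (x, y).1 (x, y).2 ≠ 0 then 1 else 0) (Finset.mem_univ v)]
    have h2 : (if (x, v).1 ≠ v ∧ (x, v).2 ≠ v ∧ sm6_g f h (x, v).1 (x, v).2 ≠ 0 then 1 else 0) =
      0 := by simp
    rw [h2, zero_add]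
    congr 1
    · rw [if_congr (sm6_g_ne_swap f h x v) rfl rfl]
    · refine Finset.sum_congr rfl fun y hy => ?_
      have hyv : y ≠ v := Finset.ne_of_mem_erase hy
      simp [hxv, hyv]
  rw [Finset.sum_congr rfl h1, Finset.sum_add_distrib]
  have h3 : (∑ y, if (v, y).1 ≠ v ∧ (v, y).2 ≠ v ∧ sm6_g f h (v, y).1 (v, y).2 ≠ 0 then 1 else 0) =
      0 := by simp
  rw [h3, zero_add]
  have h4 : (∑ y, if sm6_g f h (v, y).1 (v, y).2 ≠ 0 then 1 else 0) =
      ∑ x ∈ Finset.univ.erase v, (if sm6_g f h v x ≠ 0 then 1 else 0) := by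
    rw [← Finset.add_sum_erase _ _ (Finset.mem_univ v)]
    simp [sm6_g_self]
  have h5 : (∑ x, if sm6_g f h v x ≠ 0 then 1 else 0) =
      ∑ x ∈ Finset.univ.erase v, (if sm6_g f h v x ≠ 0 then 1 else 0) := h4
  rw [h5]
  ring

/-- the gauge of least support -/
theorem sm6_exists_min [NeZero q] (f : E' n → ZMod q) :
    ∃ h : Fin n → ZMod q, ∀ h', sm6_supp f h ≤ sm6_supp f h' := by
  obtain ⟨h, -, hh⟩ := Finset.exists_min_image (Finset.univ : Finset (Fin n → ZMod q))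
    (sm6_supp f) ⟨0, Finset.mem_univ _⟩
  exact ⟨h, fun h' => hh h' (Finset.mem_univ _)⟩

theorem sm6_min_at [NeZero q] (f : E' n → ZMod q) (h : Fin n → ZMod q)
    (hh : ∀ h', sm6_supp f h ≤ sm6_supp f h') (v : Fin n) (c : ZMod q) :
    cnt (fun x => x ≠ v ∧ sm6_g f h v x = c) + sm6_deg f h v + 1 ≤ n := by
  classical
  have h1 := hh (Function.update h v (h v + c))
  rw [sm6_supp_split f h v, sm6_supp_split f _ v] at h1
  have h2 : cnt (fun x : Fin n × Fin n => x.1 ≠ v ∧ x.2 ≠ v ∧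
      sm6_g f (Function.update h v (h v + c)) x.1 x.2 ≠ 0) =
      cnt (fun x : Fin n × Fin n => x.1 ≠ v ∧ x.2 ≠ v ∧ sm6_g f h x.1 x.2 ≠ 0) := by
    refine sm6_cnt_congr fun x => ?_
    refine and_congr_right fun hx1 => and_congr_right fun hx2 => ?_
    unfold sm6_g
    rw [Function.update_of_ne hx1, Function.update_of_ne hx2]
  rw [h2] at h1
  have h3 : sm6_deg f h v ≤ sm6_deg f (Function.update h v (h v + c)) v := by omega
  have h4 : sm6_deg f (Function.update h v (h v + c)) v +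
      cnt (fun x => x ≠ v ∧ sm6_g f h v x = c) + 1 ≤ n := by
    unfold sm6_deg
    rw [sm6_cnt_eq_sum, sm6_cnt_eq_sum]
    have h5 : (1 : ℕ) = ∑ x : Fin n, if x = v then 1 else 0 := by simp
    have h6 : n = ∑ x : Fin n, 1 := by simp
    conv_rhs => rw [h6]
    rw [h5, ← Finset.sum_add_distrib, ← Finset.sum_add_distrib]
    refine Finset.sum_le_sum fun x _ => ?_
    by_cases hx : x = v
    · subst hx
      simp [sm6_g_self]
    · have h7 : sm6_g f (Function.update h v (h v + c)) v x = sm6_g f h v x - c := by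
        unfold sm6_g
        rw [Function.update_of_ne hx, Function.update_self]
        ring
      rw [h7]
      by_cases h8 : sm6_g f h v x = c
      · simp [h8, hx]
      · simp [h8, hx]
        split_ifs <;> simp
  omega

theorem sm6_good_vertex [NeZero q] (hn : 1 ≤ n) (ε0 : ℝ) (f : E' n → ZMod q)
    (hs : Small q ε0 f) : ∃ h : Fin n → ZMod q, (sm6_supp f h : ℝ) ≤ ε0 * (n : ℝ) ^ 2 := by
  classical
  by_contra hc
  push Not at hc
  have h1 : ∀ v : Fin n, ε0 * (n : ℝ) ^ 2 <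
      (cnt (fun x : Fin n × Fin n => cob (tl f) (v, x) ≠ 0) : ℝ) := by
    intro v
    refine (hc (fun b => tl f b v)).trans_le ?_
    rw [Nat.cast_le]
    refine sm6_cnt_le fun x hx => ?_
    intro h2
    apply hx
    unfold cob at h2
    unfold sm6_g
    simp only at h2 ⊢
    rw [sm6_tl_swap f x.1 v, ← h2]
    abel
  unfold Small at hs
  rw [sm6_cnt_prod] at hs
  have h2 : ∑ v : Fin n, ε0 * (n : ℝ) ^ 2 <
      ∑ v : Fin n, (cnt (fun x : Fin n × Fin n => cob (tl f) (v, x) ≠ 0) : ℝ) := by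
    refine Finset.sum_lt_sum_of_nonempty ?_ fun v _ => h1 v
    exact ⟨⟨0, hn⟩, Finset.mem_univ _⟩
  rw [Finset.sum_const, Finset.card_univ, Fintype.card_fin, nsmul_eq_mul] at h2
  push_cast at hs
  nlinarith [hs, h2]

open Classical in
/-- vertices of large degree -/
noncomputable def sm6_H (f : E' n → ZMod q) (h : Fin n → ZMod q) : Finset (Fin n) :=
  Finset.univ.filter fun v => (n : ℝ) / 20 < sm6_deg f h v

theorem sm6_mem_H (f : E' n → ZMod q) (h : Fin n → ZMod q) (v : Fin n) :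
    v ∈ sm6_H f h ↔ (n : ℝ) / 20 < sm6_deg f h v := by
  unfold sm6_H
  simp

open Classical in
/-- light part of the support -/
noncomputable def sm6_F (f : E' n → ZMod q) (h : Fin n → ZMod q) : Finset (E n) :=
  Finset.univ.filter fun e => e.1.1 ∉ sm6_H f h ∧ e.1.2 ∉ sm6_H f h ∧ sm6_g f h e.1.1 e.1.2 ≠ 0

theorem sm6_inF (f : E' n → ZMod q) (h : Fin n → ZMod q) (a b : Fin n) :
    inF (sm6_F f h) a b ↔ a ∉ sm6_H f h ∧ b ∉ sm6_H f h ∧ sm6_g f h a b ≠ 0 := by
  unfold inF sm6_F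
  simp only [Finset.mem_filter, Finset.mem_univ, true_and]
  constructor
  · rintro ⟨⟨⟨x, y⟩, hxy⟩, ⟨h1, h2, h3⟩, h4 | h4⟩
    · simp only [Prod.mk.injEq] at h4
      obtain ⟨rfl, rfl⟩ := h4
      exact ⟨h1, h2, h3⟩
    · simp only [Prod.mk.injEq] at h4
      obtain ⟨rfl, rfl⟩ := h4
      exact ⟨h2, h1, (sm6_g_ne_swap f h _ _).mpr h3⟩
  · rintro ⟨h1, h2, h3⟩
    have hab : a ≠ b := by
      rintro rfl
      exact h3 (sm6_g_self f h a)
    rcases lt_or_gt_of_ne hab with hlt | hlt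
    · exact ⟨⟨(a, b), hlt⟩, ⟨h1, h2, h3⟩, Or.inl rfl⟩
    · exact ⟨⟨(b, a), hlt⟩, ⟨h2, h1, (sm6_g_ne_swap f h _ _).mpr h3⟩, Or.inr rfl⟩

theorem sm6_dg (f : E' n → ZMod q) (h : Fin n → ZMod q) (v : Fin n) :
    (dg (sm6_F f h) v : ℝ) ≤ n / 20 := by
  classical
  by_cases hv : v ∈ sm6_H f h
  · have h1 : dg (sm6_F f h) v = 0 := by
      unfold dg cnt
      rw [Finset.card_eq_zero, Finset.filter_eq_empty_iff]
      intro u _ hu
      exact ((sm6_inF f h v u).mp hu).1 hv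
    rw [h1, Nat.cast_zero]
    positivity
  · have h1 : dg (sm6_F f h) v ≤ sm6_deg f h v :=
      sm6_cnt_le fun u hu => ((sm6_inF f h v u).mp hu).2.2
    rw [sm6_mem_H, not_lt] at hv
    exact le_trans (by exact_mod_cast h1) hv

theorem sm6_F_card (f : E' n → ZMod q) (h : Fin n → ZMod q) :
    (sm6_F f h).card ≤ sm6_supp f h := by
  classical
  unfold sm6_supp cnt
  refine Finset.card_le_card_of_injOn (fun e => e.1) ?_ ?_
  · intro e he
    unfold sm6_F at he
    simp only [Finset.coe_filter, Finset.mem_univ, true_and, Set.mem_ofPred_eq] at he ⊢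
    exact he.2.2
  · intro e _ e' _ hee
    exact Subtype.ext hee

theorem sm6_H_card (f : E' n → ZMod q) (h : Fin n → ZMod q) (ε0 : ℝ) (hn : 1 ≤ n)
    (hs : (sm6_supp f h : ℝ) ≤ ε0 * (n : ℝ) ^ 2) : ((sm6_H f h).card : ℝ) ≤ 20 * ε0 * n := by
  have hn' : (0 : ℝ) < n := by exact_mod_cast hn
  have h1 : (sm6_H f h).card * ((n : ℝ) / 20) ≤ sm6_supp f h := by
    rw [sm6_supp_eq]
    push_cast
    calc ((sm6_H f h).card : ℝ) * ((n : ℝ) / 20) = ∑ v ∈ sm6_H f h, (n : ℝ) / 20 := by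
          rw [Finset.sum_const, nsmul_eq_mul]
      _ ≤ ∑ v ∈ sm6_H f h, (sm6_deg f h v : ℝ) :=
          Finset.sum_le_sum fun v hv => ((sm6_mem_H f h v).mp hv).le
      _ ≤ ∑ v, (sm6_deg f h v : ℝ) :=
          Finset.sum_le_sum_of_subset_of_nonneg (Finset.subset_univ _) fun _ _ _ =>
            Nat.cast_nonneg _
  have h2 : ((sm6_H f h).card : ℝ) * ((n : ℝ) / 20) ≤ (20 * ε0 * n) * ((n : ℝ) / 20) := by
    refine (h1.trans hs).trans (le_of_eq ?_)
    ring
  exact le_of_mul_le_mul_right h2 (by positivity)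

theorem sm6_not_Y1 (f : E' n → ZMod q) (h : Fin n → ZMod q) (a b c : Fin n)
    (hc : sm6_g f h a b + sm6_g f h b c + sm6_g f h c a = 0) :
    ¬ Y1 (sm6_H f h) (sm6_g f h) (sm6_F f h) a b c := by
  rintro ⟨-, hb, hc', -, h1⟩
  rw [sm6_inF] at h1
  rw [sm6_g_swap f h c a] at hc
  by_cases h2 : sm6_g f h a b = sm6_g f h a c
  · have h3 := (h1.mpr h2).2.2
    apply h3
    rw [h2] at hc
    rw [← hc]
    abel
  · have h3 : sm6_g f h b c = 0 := by
      by_contra h4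
      exact h2 (h1.mp ⟨hb, hc', h4⟩)
    rw [h3, add_zero] at hc
    exact h2 (eq_of_sub_eq_zero (by rw [sub_eq_add_neg]; exact hc))

theorem sm6_not_YI (f : E' n → ZMod q) (h : Fin n → ZMod q) (a b c : Fin n)
    (ha : a ∉ sm6_H f h) (hb : b ∉ sm6_H f h) (hcH : c ∉ sm6_H f h)
    (hc : sm6_g f h a b + sm6_g f h b c + sm6_g f h c a = 0) :
    ¬ YI (sm6_F f h) (a, b, c) := by
  unfold YI One3
  simp only [sm6_inF, ha, hb, hcH, not_false_eq_true, true_and, not_not]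
  rintro (⟨h1, h2, h3⟩ | ⟨h1, h2, h3⟩ | ⟨h1, h2, h3⟩)
  · apply h1
    rw [h2, h3] at hc
    simpa using hc
  · apply h2
    rw [h1, h3] at hc
    simpa using hc
  · apply h3
    rw [h1, h2] at hc
    simpa using hc

theorem gauge_cases_pr (n q : ℕ) (hn : 1 ≤ n) [NeZero q] (ε0 : ℝ) (h0 : 0 < ε0)
    (τ : E' n → Tri n) (f : E' n → ZMod q) (hf : f ∈ Kq (ZMod q) τ) (hs : Small q ε0 f) :
    (∃ (H : Finset (Fin n)) (lab : Fin n → Fin n → ZMod q) (F : Finset (E n)),
      HeavyCfg q ε0 H lab F ∧ ∀ i, ¬ YY H lab F (τ i)) ∨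
    (∃ F : Finset (E n), (∀ v, (dg F v : ℝ) ≤ n / 20) ∧ (∀ i, ¬ YI F (τ i)) ∧
      ∃ (g : Fin n → Fin n → ZMod q) (h : Fin n → ZMod q),
        (∀ a b, g a b = tl f a b + h b - h a) ∧ (∀ a b, g a b ≠ 0 → inF F a b)) := by
  obtain ⟨h₀, hh₀⟩ := sm6_good_vertex hn ε0 f hs
  obtain ⟨h, hh⟩ := sm6_exists_min f
  have hsupp : (sm6_supp f h : ℝ) ≤ ε0 * (n : ℝ) ^ 2 :=
    le_trans (by exact_mod_cast hh h₀) hh₀
  have hcob : ∀ i, sm6_g f h (τ i).1 (τ i).2.1 + sm6_g f h (τ i).2.1 (τ i).2.2 +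
      sm6_g f h (τ i).2.2 (τ i).1 = 0 := by
    intro i
    have h1 : cob (sm6_g f h) (τ i) = 0 := by
      rw [sm6_cob_g]
      exact hf i
    exact h1
  by_cases hH : (sm6_H f h).Nonempty
  · left
    refine ⟨sm6_H f h, sm6_g f h, sm6_F f h, ⟨hH, sm6_H_card f h ε0 hn hsupp, ?_, ?_, ?_,
      sm6_dg f h⟩, ?_⟩
    · intro v hv c
      have h1 := sm6_min_at f h hh v c
      have h2 : cnt (fun x => x ∉ sm6_H f h ∧ sm6_g f h v x = c) ≤
          cnt (fun x => x ≠ v ∧ sm6_g f h v x = c) := by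
        refine sm6_cnt_le fun x hx => ⟨?_, hx.2⟩
        rintro rfl
        exact hx.1 hv
      rw [sm6_mem_H] at hv
      have h3 : (cnt (fun x => x ≠ v ∧ sm6_g f h v x = c) : ℝ) + sm6_deg f h v + 1 ≤ n := by
        exact_mod_cast h1
      have h4 : (cnt (fun x => x ∉ sm6_H f h ∧ sm6_g f h v x = c) : ℝ) ≤
          cnt (fun x => x ≠ v ∧ sm6_g f h v x = c) := by exact_mod_cast h2
      linarith
    · intro e he
      unfold sm6_F at he
      simp only [Finset.mem_filter, Finset.mem_univ, true_and] at he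
      exact ⟨he.1, he.2.1⟩
    · refine le_trans ?_ hsupp
      exact_mod_cast sm6_F_card f h
    · intro i
      have hc := hcob i
      rintro (⟨h1, h2, h3, h4⟩ | h4 | h4 | h4)
      · exact sm6_not_YI f h _ _ _ h1 h2 h3 hc h4
      · exact sm6_not_Y1 f h _ _ _ hc h4
      · refine sm6_not_Y1 f h _ _ _ ?_ h4
        rw [← hc]
        abel
      · refine sm6_not_Y1 f h _ _ _ ?_ h4
        rw [← hc]
        abel
  · right
    have hH' : ∀ v, v ∉ sm6_H f h := fun v hv => hH ⟨v, hv⟩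
    refine ⟨sm6_F f h, sm6_dg f h, fun i => sm6_not_YI f h _ _ _ (hH' _) (hH' _) (hH' _) (hcob i),
      sm6_g f h, h, fun a b => rfl, fun a b hab => ?_⟩
    rw [sm6_inF]
    exact ⟨hH' a, hH' b, hab⟩

end Pool.Agent.HT
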